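import Pool.Agent.Helper39_SOS.LL0
import Pool.Agent.Helper39_SOS.DLL
import Pool.Agent.Helper57_SOS.Blk3

/-!
# The target polynomial of the pairs of the lattice belongs to the data (helper39, MP_37fa12_co)
-/

set_option autoImplicit false
set_option maxRecDepth 100000

namespace Pool.Agent.SOS.N22

open Pool.Agent.SOS Pool.Agent.SOS.H57 Pool.Agent.SOS.LLX

theorem sh22 : eq3 (shABC 23 23 16 0 256 (sym LL0)) dLL = true := by decide +kernel

theorem eLL' (a b c : ℝ) : v3 (shABC 23 23 16 0 256 (sym LL0)) a b c = v3 dLL a b c :=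
  eq3_spec _ _ sh22 a b c

theorem eLL (a b c : ℝ) :
    v3 (shABC 23 23 16 0 256 (sym LL0)) a b c = ev (tm3 dLL) a b c := by
  rw [eLL', ev_tm3]

end Pool.Agent.SOS.N22
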