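import Pool.Agent.LPV.Defs
import Pool.Agent.Helper49_SOS.Dense

/-!
# The polynomial of the pairs of the lattice, dense (helper39, for MP_37fa12_co)

`LLd D : D3` is the polynomial `LL` of the certificate data `D` in `A`, `B`, `C = H²`, `tLL` is
`-(LL(A,B,H) + LL(B,A,H))` in the variables `a, b, c` with `A = μ + r a`, `B = μ + r b`, `H² = g + q c`.
-/

set_option autoImplicit false

namespace Pool.Agent.SOS.LLX

open Pool.Agent.LPK Pool.Agent.LPV Pool.Agent.SOS

/-! ### insertion of a monomial -/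

/-- the entry at the place `i` is changed by `f` -/
def insG {α : Type} (f : α → α) (z : α) : ℕ → List α → List α
  | 0, [] => [f z]
  | 0, a :: p => f a :: p
  | i + 1, [] => z :: insG f z i []
  | i + 1, a :: p => a :: insG f z i p

theorem hor_ins {α : Type} {v : α → ℝ} {f : α → α} {z : α} {e : ℝ} (hf : ∀ a, v (f a) = v a + e)
    (hz : v z = 0) (x : ℝ) : ∀ (i : ℕ) (p : List α), hor v x (insG f z i p) = hor v x p + e * x ^ i
  | 0, [] => by
    rw [insG, hor_cons, hor_nil, hf, hz]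
    ring
  | 0, a :: p => by
    rw [insG, hor_cons, hor_cons, hf]
    ring
  | i + 1, [] => by
    rw [insG, hor_cons, hor_ins hf hz x i [], hor_nil, hz, pow_succ]
    ring
  | i + 1, a :: p => by
    rw [insG, hor_cons, hor_ins hf hz x i p, hor_cons, pow_succ]
    ring

def ins1 (c : ℤ) (k : ℕ) : D1 → D1 := insG (Int.add c) 0 k
def ins2 (c : ℤ) (j k : ℕ) : D2 → D2 := insG (ins1 c k) [] j
def ins3 (c : ℤ) (i j k : ℕ) : D3 → D3 := insG (ins2 c j k) [] i

theorem v1_ins (c : ℤ) (k : ℕ) (p : D1) (x : ℝ) : v1 (ins1 c k p) x = v1 p x + c * x ^ k :=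
  hor_ins (v := fun a : ℤ => (a : ℝ)) (fun a => by
    rw [castAdd]
    ring) Int.cast_zero x k p

theorem v2_ins (c : ℤ) (j k : ℕ) (p : D2) (x y : ℝ) :
    v2 (ins2 c j k p) x y = v2 p x y + c * y ^ k * x ^ j :=
  hor_ins (v := fun q => v1 q y) (fun a => v1_ins c k a y) (v1_nil y) x j p

theorem v3_ins (c : ℤ) (i j k : ℕ) (p : D3) (x y z : ℝ) :
    v3 (ins3 c i j k p) x y z = v3 p x y z + c * z ^ k * y ^ j * x ^ i :=
  hor_ins (v := fun q => v2 q y z) (fun a => v2_ins c j k a y z) (v2_nil y z) x i p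

/-- dense form of a polynomial which is even in `H` -/
def den : P3 → D3
  | [] => []
  | t :: p => ins3 t.1 t.2.1 t.2.2.1 (t.2.2.2 / 2) (den p)

theorem v3_den (p : P3) (hp : Ev p) (A B H : ℝ) : v3 (den p) A B (H ^ 2) = e3 p A B H := by
  induction p with
  | nil => rfl
  | cons t p ih =>
    have h : e3 (t :: p) A B H = (t.1 : ℝ) * A ^ t.2.1 * B ^ t.2.2.1 * H ^ t.2.2.2 + e3 p A B H := by
      simp [e3]
    rw [den, v3_ins, ih fun s hs => hp s (List.mem_cons_of_mem _ hs), h]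
    by_cases h0 : t.1 = 0
    · rw [h0, Int.cast_zero]
      ring
    · have h2 := hp t List.mem_cons_self h0
      have h3 : H ^ t.2.2.2 = (H ^ 2) ^ (t.2.2.2 / 2) := by
        rw [← pow_mul]
        congr 1
        omega
      rw [h3]
      ring

/-! ### kernels of squares -/

theorem e1_eq (s : List ℤ) (x : ℝ) : e1 s x = v1 s x := by
  induction s with
  | nil => rfl
  | cons a s ih =>
    show (a : ℝ) + x * e1 s x = _
    rw [ih, v1_cons]

/-- `d s(A) s(B)` -/
def sq2 (d : ℕ) (s : List ℤ) : D2 := s.map fun c => sc1 (Int.mul d c) s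

theorem v2_sq2 (d : ℕ) (s : List ℤ) (x y : ℝ) : v2 (sq2 d s) x y = d * (v1 s x * v1 s y) := by
  have h : ∀ t : List ℤ, v2 (t.map fun c => sc1 (Int.mul d c) s) x y = d * (v1 t x * v1 s y) := by
    intro t
    induction t with
    | nil => simp [v2_nil, v1_nil]
    | cons a t ih =>
      rw [List.map_cons, v2_cons, ih, v1_sc, castMul, v1_cons]
      push_cast
      ring
  exact h s

/-- `∑ d s(A) s(B)` -/
def k2d : List (ℕ × List ℤ) → D2
  | [] => []
  | d :: L => add2 (sq2 d.1 d.2) (k2d L)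

theorem v2_k2d (L : List (ℕ × List ℤ)) (x y : ℝ) : v2 (k2d L) x y = K2 L x y := by
  induction L with
  | nil => rfl
  | cons d L ih =>
    have h : K2 (d :: L) x y = (d.1 : ℝ) * (e1 d.2 x * e1 d.2 y) + K2 L x y := by
      simp [K2]
    rw [k2d, v2_add, ih, v2_sq2, h, e1_eq, e1_eq]

/-- a polynomial in `A`, `B` as a polynomial in `A`, `B`, `C` -/
def up2 (p : D2) : D3 := p.map fun q => q.map fun c => [c]

theorem v3_up2 (p : D2) (x y z : ℝ) : v3 (up2 p) x y z = v2 p x y :=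
  hor_map' (v := fun q => v2 q y z) (w := fun q => v1 q y) (g := fun q => q.map fun c => [c])
    (fun q => hor_map' (v := fun q => v1 q z) (w := fun c : ℤ => (c : ℝ)) (g := fun c => [c])
      (fun c => by
        show v1 [c] z = (c : ℝ)
        rw [v1_cons, v1_nil]
        ring) y q) x p

/-- the kernel of degree `l` as a polynomial -/
def zkP (l : ℕ) (z : List ℤ) : P3 := (List.range (l / 2 + 1)).map fun j => (z.getD j 0, j, j, l - 2 * j)

theorem e3_zkP (l : ℕ) (z : List ℤ) (A B H : ℝ) : e3 (zkP l z) A B H = zk l z A B H := by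
  unfold e3 zkP zk
  rw [List.map_map, ← List.sum_toFinset _ List.nodup_range, List.toFinset_range]
  refine Finset.sum_congr rfl fun j _ => ?_
  show ((z.getD j 0 : ℤ) : ℝ) * A ^ j * B ^ j * H ^ (l - 2 * j) = _
  rw [mul_pow]
  ring

theorem ev_zkP (l : ℕ) (z : List ℤ) (hl : l % 2 = 0) : Ev (zkP l z) := by
  intro t ht _
  obtain ⟨j, _, rfl⟩ := List.mem_map.1 ht
  show (l - 2 * j) % 2 = 0
  omega

/-- the kernels of degree `l` -/
def kld : List (ℕ × List ℤ × List (ℕ × List ℤ)) → D3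
  | [] => []
  | d :: L => add3 (mul3 (den (zkP d.1 d.2.1)) (up2 (k2d d.2.2))) (kld L)

theorem v3_kld (L : List (ℕ × List ℤ × List (ℕ × List ℤ))) (hL : ∀ d ∈ L, d.1 % 2 = 0)
    (A B H : ℝ) : v3 (kld L) A B (H ^ 2) =
      (L.map fun d => K2 d.2.2 A B * zk d.1 d.2.1 A B H).sum := by
  induction L with
  | nil => rfl
  | cons d L ih =>
    rw [kld, v3_add, ih fun e he => hL e (List.mem_cons_of_mem _ he), v3_mul,
      v3_den _ (ev_zkP _ _ (hL d List.mem_cons_self)), e3_zkP, v3_up2, v2_k2d, List.map_cons,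
      List.sum_cons]
    ring

/-! ### half width -/

/-- multiplication of the inner variable by `4 C` -/
def m4 (p : D2) : D2 := p.map fun q => 0 :: sc1 4 q

theorem v2_m4 (p : D2) (x y : ℝ) : v2 (m4 p) x y = 4 * y * v2 p x y :=
  hor_map (v := fun q => v1 q y) (fun q => by
    show v1 (0 :: sc1 4 q) y = 4 * y * v1 q y
    rw [v1_cons, v1_sc]
    push_cast
    ring) x p

/-- `s(X + 2H) = u(X, H²) + 2H v(X, H²)` -/
def uv : List ℤ → D2 × D2
  | [] => ([], [])
  | a :: s =>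
    match uv s with
    | (u, v) => (add2 [[a]] (add2 ([] :: u) (m4 v)), add2 u ([] :: v))

theorem uv_spec (s : List ℤ) (X H : ℝ) :
    v1 s (X + 2 * H) = v2 (uv s).1 X (H ^ 2) + 2 * H * v2 (uv s).2 X (H ^ 2) := by
  induction s with
  | nil =>
    show (0 : ℝ) = 0 + 2 * H * 0
    ring
  | cons a s ih =>
    have h1 : (uv (a :: s)).1 = add2 [[a]] (add2 ([] :: (uv s).1) (m4 (uv s).2)) := rfl
    have h2 : (uv (a :: s)).2 = add2 (uv s).1 ([] :: (uv s).2) := rfl
    rw [v1_cons, ih, h1, h2, v2_add, v2_add, v2_add, v2_m4, v2_cons, v2_cons, v2_cons, v2_nil,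
      v1_nil, v1_cons, v1_nil]
    ring

/-- `u² - 4C v²` -/
def nrm (s : List ℤ) : D2 :=
  match uv s with
  | (u, v) => add2 (mul2 u u) (sc2 (-1) (m4 (mul2 v v)))

theorem v2_nrm (s : List ℤ) (X H : ℝ) :
    v2 (nrm s) X (H ^ 2) = v1 s (X + 2 * H) * v1 s (X - 2 * H) := by
  have h0 : nrm s = add2 (mul2 (uv s).1 (uv s).1) (sc2 (-1) (m4 (mul2 (uv s).2 (uv s).2))) := rfl
  have h1 := uv_spec s X H
  have h2 := uv_spec s X (-H)
  have h3 : (-H) ^ 2 = H ^ 2 := by ring
  have h4 : X + 2 * -H = X - 2 * H := by ring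
  rw [h3, h4] at h2
  rw [h1, h2, h0, v2_add, v2_mul, v2_sc, v2_m4, v2_mul]
  push_cast
  ring

/-- `∑ d s(X + 2H) s(X - 2H)` -/
def kwd : List (ℕ × List ℤ) → D2
  | [] => []
  | d :: L => add2 (sc2 d.1 (nrm d.2)) (kwd L)

theorem v2_kwd (L : List (ℕ × List ℤ)) (X H : ℝ) :
    v2 (kwd L) X (H ^ 2) = K2 L (X + 2 * H) (X - 2 * H) := by
  induction L with
  | nil => rfl
  | cons d L ih =>
    have h : K2 (d :: L) (X + 2 * H) (X - 2 * H) =
        (d.1 : ℝ) * (e1 d.2 (X + 2 * H) * e1 d.2 (X - 2 * H)) + K2 L (X + 2 * H) (X - 2 * H) := by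
      simp [K2]
    rw [kwd, v2_add, v2_sc, v2_nrm, ih, h, e1_eq, e1_eq]
    push_cast
    ring

/-- multiplication by `A + B` -/
def mAB (p : D3) : D3 := add3 ([] :: p) (p.map fun q => [] :: q)

theorem v3_mAB (p : D3) (x y z : ℝ) : v3 (mAB p) x y z = (x + y) * v3 p x y z := by
  have h : v3 (p.map fun q => [] :: q) x y z = y * v3 p x y z :=
    hor_map (v := fun q => v2 q y z) (fun q => by
      show v2 ([] :: q) y z = y * v2 q y z
      rw [v2_cons, v1_nil]
      ring) x p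
  rw [mAB, v3_add, h, v3_cons, v2_nil]
  ring

/-- substitution of `A + B` for the first variable -/
def subAB : D2 → D3
  | [] => []
  | q :: p => add3 [[q]] (mAB (subAB p))

theorem v3_subAB (p : D2) (x y z : ℝ) : v3 (subAB p) x y z = v2 p (x + y) z := by
  induction p with
  | nil => rfl
  | cons q p ih =>
    rw [subAB, v3_add, v3_mAB, ih, v3_cons, v3_nil, v2_cons, v2_nil, v2_cons]
    ring

/-- `P^k` -/
def pw (p : D3) : ℕ → D3
  | 0 => [[[1]]]
  | k + 1 => mul3 p (pw p k)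

theorem v3_pw (p : D3) (k : ℕ) (x y z : ℝ) : v3 (pw p k) x y z = v3 p x y z ^ k := by
  induction k with
  | zero =>
    rw [pw, pow_zero, v3_cons, v3_nil, v2_cons, v2_nil, v1_cons, v1_nil]
    push_cast
    ring
  | succ k ih => rw [pw, v3_mul, ih, pow_succ, mul_comm]

/-- `(A + B)² - 4C` -/
def bP : D3 := [[[0, -4], [], [1]], [[], [2]], [[1]]]
/-- `(A - B)²` -/
def bQ : D3 := [[[], [], [1]], [[], [-2]], [[1]]]

theorem v3_bP (x y z : ℝ) : v3 bP x y z = (x + y) ^ 2 - 4 * z := by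
  unfold bP
  simp only [v3_cons, v3_nil, v2_cons, v2_nil, v1_cons, v1_nil]
  push_cast
  ring

theorem v3_bQ (x y z : ℝ) : v3 bQ x y z = (x - y) ^ 2 := by
  unfold bQ
  simp only [v3_cons, v3_nil, v2_cons, v2_nil, v1_cons, v1_nil]
  push_cast
  ring

/-- sum of a list -/
def sm3 : List D3 → D3
  | [] => []
  | p :: L => add3 p (sm3 L)

theorem v3_sm3 (L : List D3) (x y z : ℝ) : v3 (sm3 L) x y z = (L.map fun p => v3 p x y z).sum := by
  induction L with
  | nil => rfl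
  | cons p L ih => rw [sm3, v3_add, ih, List.map_cons, List.sum_cons]

/-- `zk l z (X + 2H) (X - 2H) (A - B)`, `X = A + B` -/
def zkw (l : ℕ) (z : List ℤ) : D3 :=
  sm3 ((List.range (l / 2 + 1)).map fun j => sc3 (z.getD j 0) (mul3 (pw bP j) (pw bQ (l / 2 - j))))

theorem v3_zkw (l : ℕ) (z : List ℤ) (hl : l % 2 = 0) (A B H : ℝ) :
    v3 (zkw l z) A B (H ^ 2) = zk l z (A + B + 2 * H) (A + B - 2 * H) (A - B) := by
  unfold zkw zk
  rw [v3_sm3, List.map_map, ← List.sum_toFinset _ List.nodup_range, List.toFinset_range]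
  refine Finset.sum_congr rfl fun j hj => ?_
  have hj' : j < l / 2 + 1 := Finset.mem_range.1 hj
  show v3 (sc3 (z.getD j 0) (mul3 (pw bP j) (pw bQ (l / 2 - j)))) A B (H ^ 2) = _
  rw [v3_sc, v3_mul, v3_pw, v3_pw, v3_bP, v3_bQ]
  have h1 : (A + B + 2 * H) * (A + B - 2 * H) = (A + B) ^ 2 - 4 * H ^ 2 := by ring
  have h2 : ((A - B) ^ 2) ^ (l / 2 - j) = (A - B) ^ (l - 2 * j) := by
    rw [← pow_mul]
    congr 1
    omega
  rw [h1, h2]
  ring

/-- the half width kernels of degree `l` -/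
def kwl : List (ℕ × List ℤ × List (ℕ × List ℤ)) → D3
  | [] => []
  | d :: L => add3 (mul3 (zkw d.1 d.2.1) (subAB (kwd d.2.2))) (kwl L)

theorem v3_kwl (L : List (ℕ × List ℤ × List (ℕ × List ℤ))) (hL : ∀ d ∈ L, d.1 % 2 = 0)
    (A B H : ℝ) : v3 (kwl L) A B (H ^ 2) =
      (L.map fun d => K2 d.2.2 (A + B + 2 * H) (A + B - 2 * H) *
        zk d.1 d.2.1 (A + B + 2 * H) (A + B - 2 * H) (A - B)).sum := by
  induction L with
  | nil => rfl
  | cons d L ih =>
    rw [kwl, v3_add, ih fun e he => hL e (List.mem_cons_of_mem _ he), v3_mul,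
      v3_zkw _ _ (hL d List.mem_cons_self), v3_subAB, v2_kwd, List.map_cons, List.sum_cons]
    ring

/-! ### the polynomial of the pairs -/

/-- `LL` -/
def LLd (D : DW) : D3 :=
  add3 (den D.P) (add3 (up2 (k2d (D.ps.map fun d => (d.1, d.2.2)))) (add3 (kld D.pl)
    (add3 (subAB (kwd (D.w.map fun d => (d.1, d.2.2.2)))) (kwl D.wl))))

theorem v3_LLd (D : DW) (hP : Ev D.P) (hz : ∀ d ∈ D.pl, d.1 % 2 = 0)
    (hw : ∀ d ∈ D.wl, d.1 % 2 = 0) (A B H : ℝ) : v3 (LLd D) A B (H ^ 2) = D.LL A B H := by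
  unfold LLd
  rw [v3_add, v3_add, v3_add, v3_add, v3_den _ hP, v3_up2, v2_k2d, v3_kld _ hz, v3_subAB, v2_kwd,
    v3_kwl _ hw]
  unfold DW.LL DW.K DW.KW DW.KL
  have h : (D.w.map fun d => (d.1 : ℝ) * (e1 d.2.2.2 (A + B + 2 * H) *
      e1 d.2.2.2 (A + B - 2 * H))).sum =
      K2 (D.w.map fun d => (d.1, d.2.2.2)) (A + B + 2 * H) (A + B - 2 * H) := by
    unfold K2
    rw [List.map_map]
    rfl
  rw [h]
  ring

/-- `p(A,B) + p(B,A)` -/
def sym3 (p : D3) : D3 := add3 p (swp p)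

theorem v3_sym3 (p : D3) (x y z : ℝ) : v3 (sym3 p) x y z = v3 p x y z + v3 p y x z := by
  rw [sym3, v3_add, v3_swp p y x z]

/-- shift of all variables -/
def shf (m r g q : ℤ) (p : D3) : D3 := sh3 m r (shB m r (shC g q p))

theorem v3_shf (m r g q : ℤ) (p : D3) (a b c : ℝ) :
    v3 (shf m r g q p) a b c = v3 p (m + r * a) (m + r * b) (g + q * c) := by
  rw [shf, v3_sh, v3_shB, v3_shC]

/-- `-(LL(A,B,H) + LL(B,A,H))` in the variables `a, b, c` -/
def tLL (m r g q : ℤ) (D : DW) : D3 := sc3 (-1) (shf m r g q (sym3 (LLd D)))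

theorem v3_tLL (m r g q : ℤ) (D : DW) (hP : Ev D.P) (hz : ∀ d ∈ D.pl, d.1 % 2 = 0)
    (hw : ∀ d ∈ D.wl, d.1 % 2 = 0) (a b c H : ℝ) (hH : H ^ 2 = g + q * c) :
    v3 (tLL m r g q D) a b c = -(D.LL (m + r * a) (m + r * b) H + D.LL (m + r * b) (m + r * a) H) := by
  rw [tLL, v3_sc, v3_shf, v3_sym3, ← hH, v3_LLd D hP hz hw, v3_LLd D hP hz hw]
  push_cast
  ring

/-- the form of the condition `ll` -/
theorem LL_le (m r g q : ℤ) (D : DW) (hP : Ev D.P) (hz : ∀ d ∈ D.pl, d.1 % 2 = 0)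
    (hw : ∀ d ∈ D.wl, d.1 % 2 = 0) (hr : (0 : ℝ) < r) (hq : (0 : ℝ) < q)
    (h : ∀ a b c : ℝ, 0 ≤ a → 0 ≤ b → 0 ≤ g + q * c →
      g + q * c ≤ (m + r * a) * (m + r * b) →
      (∀ s : ℝ, 0 ≤ s → s ^ 2 = g + q * c → m ≤ (m + r * a) + (m + r * b) - 2 * s) →
      0 ≤ v3 (tLL m r g q D) a b c) (A B H : ℝ) (hA : m ≤ A) (hB : m ≤ B) (hH : 0 ≤ H)
    (hu : m ≤ A + B - 2 * H) (hd : H ^ 2 ≤ A * B) : D.LL A B H + D.LL B A H ≤ 0 := by
  have eA : (m : ℝ) + r * ((A - m) / r) = A := by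
    field_simp
    ring
  have eB : (m : ℝ) + r * ((B - m) / r) = B := by
    field_simp
    ring
  have eC : (g : ℝ) + q * ((H ^ 2 - g) / q) = H ^ 2 := by
    field_simp
    ring
  have h1 := h ((A - m) / r) ((B - m) / r) ((H ^ 2 - g) / q)
    (div_nonneg (sub_nonneg.2 hA) hr.le) (div_nonneg (sub_nonneg.2 hB) hr.le)
    (by rw [eC]; positivity) (by rw [eA, eB, eC]; exact hd) (by
      rw [eA, eB, eC]
      intro s hs hs2
      have : s = H := by
        have h5 : (s - H) * (s + H) = 0 := by linarith [hs2, sq_nonneg s]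
        rcases mul_eq_zero.1 h5 with h6 | h6
        · linarith
        · linarith
      rw [this]
      exact hu)
  rw [v3_tLL m r g q D hP hz hw _ _ _ H eC.symm, eA, eB] at h1
  linarith

/-! ### comparison with a literal -/

def z1 : D1 → Bool
  | [] => true
  | a :: p => (decide (a = 0)) && z1 p
def z2 : D2 → Bool
  | [] => true
  | a :: p => z1 a && z2 p
def z3 : D3 → Bool
  | [] => true
  | a :: p => z2 a && z3 p
def eq1 : D1 → D1 → Bool
  | [], q => z1 q
  | a :: p, [] => (decide (a = 0)) && z1 p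
  | a :: p, b :: q => (decide (a = b)) && eq1 p q
def eq2 : D2 → D2 → Bool
  | [], q => z2 q
  | a :: p, [] => z1 a && z2 p
  | a :: p, b :: q => eq1 a b && eq2 p q
/-- equality of polynomials, up to zero coefficients at the ends -/
def eq3 : D3 → D3 → Bool
  | [], q => z3 q
  | a :: p, [] => z2 a && z3 p
  | a :: p, b :: q => eq2 a b && eq3 p q

theorem z1_spec (p : D1) (h : z1 p = true) (x : ℝ) : v1 p x = 0 := by
  induction p with
  | nil => rfl
  | cons a p ih =>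
    rw [z1, Bool.and_eq_true] at h
    rw [v1_cons, ih h.2, of_decide_eq_true h.1]
    simp

theorem z2_spec (p : D2) (h : z2 p = true) (x y : ℝ) : v2 p x y = 0 := by
  induction p with
  | nil => rfl
  | cons a p ih =>
    rw [z2, Bool.and_eq_true] at h
    rw [v2_cons, ih h.2, z1_spec a h.1]
    simp

theorem z3_spec (p : D3) (h : z3 p = true) (x y z : ℝ) : v3 p x y z = 0 := by
  induction p with
  | nil => rfl
  | cons a p ih =>
    rw [z3, Bool.and_eq_true] at h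
    rw [v3_cons, ih h.2, z2_spec a h.1]
    simp

theorem eq1_spec : ∀ p q : D1, eq1 p q = true → ∀ x : ℝ, v1 p x = v1 q x
  | [], q, h, x => by rw [v1_nil, z1_spec q h]
  | a :: p, [], h, x => z1_spec (a :: p) h x
  | a :: p, b :: q, h, x => by
    rw [eq1, Bool.and_eq_true] at h
    rw [v1_cons, v1_cons, eq1_spec p q h.2, of_decide_eq_true h.1]

theorem eq2_spec : ∀ p q : D2, eq2 p q = true → ∀ x y : ℝ, v2 p x y = v2 q x y
  | [], q, h, x, y => by rw [v2_nil, z2_spec q h]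
  | a :: p, [], h, x, y => z2_spec (a :: p) h x y
  | a :: p, b :: q, h, x, y => by
    rw [eq2, Bool.and_eq_true] at h
    rw [v2_cons, v2_cons, eq2_spec p q h.2, eq1_spec a b h.1]

theorem eq3_spec : ∀ p q : D3, eq3 p q = true → ∀ x y z : ℝ, v3 p x y z = v3 q x y z
  | [], q, h, x, y, z => by rw [v3_nil, z3_spec q h]
  | a :: p, [], h, x, y, z => z3_spec (a :: p) h x y z
  | a :: p, b :: q, h, x, y, z => by
    rw [eq3, Bool.and_eq_true] at h
    rw [v3_cons, v3_cons, eq3_spec p q h.2, eq2_spec a b h.1]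

/-! ### lines -/

/-- `p(a, 0, 0)` -/
def lineA (p : D3) : D1 := p.map fun q => (q.headD []).headD 0
/-- `p(0, b, 0)` -/
def lineB (p : D3) : D1 := (p.headD []).map fun q => q.headD 0
/-- `q(a²)` -/
def dg1 : D1 → D1
  | [] => []
  | c :: q => c :: 0 :: dg1 q
/-- `q(a, a²)` -/
def dg2 : D2 → D1
  | [] => []
  | q :: p => add1 (dg1 q) (0 :: dg2 p)
/-- `p(a, a, a²)` -/
def dg3 : D3 → D1
  | [] => []
  | q :: p => add1 (dg2 q) (0 :: dg3 p)

theorem v1_head (q : D1) : v1 q 0 = ((q.headD 0 : ℤ) : ℝ) := by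
  cases q with
  | nil => simp [v1_nil]
  | cons a q =>
    rw [v1_cons]
    simp

theorem v2_head (q : D2) (y : ℝ) : v2 q 0 y = v1 (q.headD []) y := by
  cases q with
  | nil => simp [v2_nil, v1_nil]
  | cons a q =>
    rw [v2_cons]
    simp

theorem v1_lineA (p : D3) (x : ℝ) : v1 (lineA p) x = v3 p x 0 0 :=
  hor_map' (v := fun c : ℤ => (c : ℝ)) (w := fun q => v2 q 0 0)
    (g := fun q : D2 => (q.headD []).headD 0) (fun q => by
      show (((q.headD []).headD 0 : ℤ) : ℝ) = v2 q 0 0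
      rw [v2_head, v1_head]) x p

theorem v1_lineB (p : D3) (y : ℝ) : v1 (lineB p) y = v3 p 0 y 0 := by
  have h : v3 p 0 y 0 = v2 (p.headD []) y 0 := by
    cases p with
    | nil => simp [v3_nil, v2_nil]
    | cons a p =>
      rw [v3_cons]
      simp
  rw [h]
  exact hor_map' (v := fun c : ℤ => (c : ℝ)) (w := fun q => v1 q 0)
    (g := fun q : D1 => q.headD 0) (fun q => by
      show ((q.headD 0 : ℤ) : ℝ) = v1 q 0
      rw [v1_head]) y (p.headD [])

theorem v1_dg1 (q : D1) (a : ℝ) : v1 (dg1 q) a = v1 q (a ^ 2) := by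
  induction q with
  | nil => rfl
  | cons c q ih =>
    rw [dg1, v1_cons, v1_cons, ih, v1_cons]
    push_cast
    ring

theorem v1_dg2 (p : D2) (a : ℝ) : v1 (dg2 p) a = v2 p a (a ^ 2) := by
  induction p with
  | nil => rfl
  | cons q p ih =>
    rw [dg2, v1_add, v1_dg1, v1_cons, ih, v2_cons]
    push_cast
    ring

theorem v1_dg3 (p : D3) (a : ℝ) : v1 (dg3 p) a = v3 p a a (a ^ 2) := by
  induction p with
  | nil => rfl
  | cons q p ih =>
    rw [dg3, v1_add, v1_dg2, v1_cons, ih, v3_cons]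
    push_cast
    ring

section

variable (D : DW) (hP : Ev D.P) (hz : ∀ d ∈ D.pl, d.1 % 2 = 0) (hw : ∀ d ∈ D.wl, d.1 % 2 = 0)

include hP hz hw

theorem LL_a00 (a : ℝ) : D.LL a 0 0 = v1 (lineA (LLd D)) a := by
  rw [v1_lineA, ← v3_LLd D hP hz hw]
  norm_num

theorem LL_0a0 (a : ℝ) : D.LL 0 a 0 = v1 (lineB (LLd D)) a := by
  rw [v1_lineB, ← v3_LLd D hP hz hw]
  norm_num

theorem LL_aaa (a : ℝ) : D.LL a a a = v1 (dg3 (LLd D)) a := by
  rw [v1_dg3, ← v3_LLd D hP hz hw]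

theorem LL_000 : D.LL 0 0 0 = ((((LLd D).headD []).headD []).headD 0 : ℤ) := by
  rw [LL_a00 D hP hz hw, v1_head]
  have h : (lineA (LLd D)).headD 0 = (((LLd D).headD []).headD []).headD 0 := by
    unfold lineA
    cases LLd D with
    | nil => rfl
    | cons a p => rfl
  rw [h]

end

/-- `∑ d α s(A)` -/
def bod : List (ℕ × ℤ × List ℤ) → D1
  | [] => []
  | d :: L => add1 (sc1 (Int.mul d.1 d.2.1) d.2.2) (bod L)

theorem v1_bod (L : List (ℕ × ℤ × List ℤ)) (a : ℝ) : bo L a = v1 (bod L) a := by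
  induction L with
  | nil => rfl
  | cons d L ih =>
    have h : bo (d :: L) a = (d.1 : ℝ) * (d.2.1 * e1 d.2.2 a) + bo L a := by
      simp [bo]
    rw [h, ih, bod, v1_add, v1_sc, castMul, e1_eq]
    push_cast
    ring

/-- `∑ d α s(4A)` -/
def wad : List (ℕ × ℤ × ℤ × List ℤ) → D1
  | [] => []
  | d :: L => add1 (sc1 (Int.mul d.1 d.2.1) (sh1 0 4 d.2.2.2)) (wad L)

theorem v1_wad (D : DW) (a : ℝ) : D.wa a = v1 (wad D.w) a := by
  have h0 : ∀ L : List (ℕ × ℤ × ℤ × List ℤ),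
      (L.map fun d => (d.1 : ℝ) * (d.2.1 * e1 d.2.2.2 (4 * a))).sum = v1 (wad L) a := by
    intro L
    induction L with
    | nil => rfl
    | cons d L ih =>
      rw [List.map_cons, List.sum_cons, ih, wad, v1_add, v1_sc, v1_sh, castMul, e1_eq]
      have h4 : (((0 : ℤ) : ℝ) + ((4 : ℤ) : ℝ) * a) = 4 * a := by
        push_cast
        ring
      rw [h4]
      push_cast
      ring
  exact h0 D.w

end Pool.Agent.SOS.LLX
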