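import Pool.Agent.Helper39_SOS.Exp
import Pool.Agent.Helper57_SOS.Lin

/-!
# The polynomial of the pairs of the lattice from dense data (helper39, for MP_37fa12_co)
-/

set_option autoImplicit false

namespace Pool.Agent.SOS.LLX

open Pool.Agent.LPK Pool.Agent.LPV Pool.Agent.SOS Pool.Agent.SOS.H57

/-- the part of `LL` without the half width block -/
def LLa (d : DD) : D3 :=
  add3 d.P (add3 (up2 (k2d (d.ps.map fun e => (e.1, e.2.2)))) (kld d.pl))

/-- the half width block in the variables `X = A + B`, `C` -/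
def LLw (d : DD) : D2 := kwd (d.w.map fun e => (e.1, e.2.2.2))

/-- `LL` -/
def LLq (d : DD) : D3 := add3 (LLa d) (subAB (LLw d))

theorem LL_eq' (d : DD) (hz : ∀ e ∈ d.pl, e.1 % 2 = 0) (A B H : ℝ) :
    d.W.LL A B H = v3 (LLa d) A B (H ^ 2) + v2 (LLw d) (A + B) (H ^ 2) := by
  have h1 : (d.w.map fun e => (e.1 : ℝ) * (e1 e.2.2.2 (A + B + 2 * H) *
      e1 e.2.2.2 (A + B - 2 * H))).sum =
      K2 (d.w.map fun e => (e.1, e.2.2.2)) (A + B + 2 * H) (A + B - 2 * H) := by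
    unfold K2
    rw [List.map_map]
    rfl
  have h2 : d.W.KL A B H = 0 := rfl
  have h3 : e3 d.W.P A B H = v3 d.P A B (H ^ 2) := e3_ofD d.P A B H
  have h4 : d.W.KW A B H = v2 (LLw d) (A + B) (H ^ 2) := by
    rw [LLw, v2_kwd, ← h1]
    rfl
  have h5 : d.W.K A B H = v3 (up2 (k2d (d.ps.map fun e => (e.1, e.2.2)))) A B (H ^ 2) +
      v3 (kld d.pl) A B (H ^ 2) := by
    rw [v3_up2, v2_k2d, v3_kld _ hz]
    rfl
  unfold DW.LL
  rw [h2, h3, h4, h5, LLa, v3_add, v3_add]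
  ring

theorem LL_eq (d : DD) (hz : ∀ e ∈ d.pl, e.1 % 2 = 0) {LL0 : D3} (h : eq3 (LLq d) LL0 = true)
    (A B H : ℝ) : d.W.LL A B H = v3 LL0 A B (H ^ 2) := by
  rw [← eq3_spec _ _ h, LL_eq' d hz, LLq, v3_add, v3_subAB]

/-- the same in two steps: literals for the two parts -/
theorem LL_eq2 (d : DD) (hz : ∀ e ∈ d.pl, e.1 % 2 = 0) {LA LL0 : D3} {LW : D2}
    (ha : eq3 (LLa d) LA = true) (hw : eq2 (LLw d) LW = true)
    (h : eq3 (add3 LA (subAB LW)) LL0 = true)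
    (A B H : ℝ) : d.W.LL A B H = v3 LL0 A B (H ^ 2) := by
  rw [← eq3_spec _ _ h, LL_eq' d hz, v3_add, v3_subAB, eq3_spec _ _ ha, eq2_spec _ _ hw]

end Pool.Agent.SOS.LLX
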